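import Mathlib

namespace Pool.Agent.Results.MP_96bd24_co.Counter

open SimpleGraph Finset

variable {V : Type}

/-- no cycle is monochromatic -/
def Woody (G : SimpleGraph V) {k : ℕ} (c : Sym2 V → Fin k) : Prop :=
  ∀ (v : V) (C : G.Walk v v), C.IsCycle → ¬ ∃ a, ∀ e ∈ C.edges, c e = a

/-- no cycle minus one edge is monochromatic -/
def StronglyWoody (G : SimpleGraph V) {k : ℕ} (c : Sym2 V → Fin k) : Prop :=
  ∀ (v : V) (C : G.Walk v v), C.IsCycle → ∀ e ∈ C.edges, ¬ ∃ a, ∀ e' ∈ C.edges, e' ≠ e → c e' = a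

/-- the arboricity -/
noncomputable def arb (G : SimpleGraph V) : ℕ := sInf {k | ∃ c : Sym2 V → Fin k, Woody G c}

/-- the strong arboricity -/
noncomputable def zeta (G : SimpleGraph V) : ℕ := sInf {k | ∃ c : Sym2 V → Fin k, StronglyWoody G c}

lemma c4 {G : SimpleGraph V} {k : ℕ} {c : Sym2 V → Fin k} (h : StronglyWoody G c) {x y z t : V}
    (h1 : G.Adj x y) (h2 : G.Adj y z) (h3 : G.Adj z t) (h4 : G.Adj t x) (a : x ≠ z) (b : y ≠ t)
    (e1 : c s(x, y) = c s(y, z)) (e2 : c s(y, z) = c s(z, t)) : False := by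
  have := h1.ne; have := h2.ne; have := h3.ne; have := h4.ne
  refine h x (.cons h1 (.cons h2 (.cons h3 (.cons h4 .nil)))) ?_ s(t, x) (by simp) ⟨c s(y, z), ?_⟩
  · simp [Walk.isCycle_def, Walk.isTrail_def]; grind
  · simp [e1, ← e2]

lemma c3 {G : SimpleGraph V} {k : ℕ} {c : Sym2 V → Fin k} (h : StronglyWoody G c) {x y z : V}
    (h1 : G.Adj x y) (h2 : G.Adj y z) (h3 : G.Adj z x) (e1 : c s(x, y) = c s(y, z)) : False := by
  have := h1.ne; have := h2.ne; have := h3.ne
  refine h x (.cons h1 (.cons h2 (.cons h3 .nil))) ?_ s(z, x) (by simp) ⟨c s(y, z), ?_⟩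
  · simp [Walk.isCycle_def, Walk.isTrail_def]; grind
  · simp [e1]

lemma woody_of_rank {G : SimpleGraph V} {k : ℕ} {c : Sym2 V → Fin k} (ρ : Fin k → V → ℕ)
    (h : ∀ a x y z, G.Adj x y → G.Adj x z → c s(x, y) = a → c s(x, z) = a → ρ a y ≤ ρ a x → ρ a z ≤ ρ a x →
      y = z) : Woody G c := by
  classical
  rintro v C hC ⟨a, ha⟩
  obtain ⟨x, hx, hm⟩ := exists_max_image C.support.toFinset (ρ a) ⟨v, by simp⟩
  simp only [List.mem_toFinset] at hx hm
  have hD := hC.rotate hx
  have hn := hD.not_nil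
  have he : ∀ e ∈ (C.rotate x hx).edges, c e = a := fun e he =>
    ha e ((C.rotate_edges x hx).mem_iff.1 he)
  have hs : ∀ y ∈ (C.rotate x hx).support, ρ a y ≤ ρ a x := fun y hy =>
    hm y ((C.mem_support_rotate_iff x hx).1 hy)
  refine hD.snd_ne_penultimate (h a x _ _ (Walk.adj_snd hn) (Walk.adj_penultimate hn).symm
    (he _ (Walk.mk_start_snd_mem_edges hn)) ?_ (hs _ (Walk.getVert_mem_support _ _))
    (hs _ (Walk.getVert_mem_support _ _)))
  rw [Sym2.eq_swap]
  exact he _ (Walk.mk_penultimate_end_mem_edges hn)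

abbrev I := Fin 100001
abbrev W := Fin 5 ⊕ I ⊕ I × I × Fin 6

def r : W → W → Prop
  | .inr (.inl _), .inl _ => True
  | .inr (.inr p), .inr (.inl i) => i = p.1 ∨ i = p.2.1
  | .inr (.inr p), .inr (.inr q) => p.1 = q.1 ∧ p.2.1 = q.2.1
  | _, _ => False

def G : SimpleGraph W := fromRel r

def hc (a b : Fin 6) : Fin 5 := ![2, 2, 3, 3, 4, 4] (a + b)

def pos : Fin 5 → Fin 6 → ℕ :=
  ![![0, 0, 0, 0, 0, 0], ![0, 0, 0, 0, 0, 0], ![0, 1, 3, 5, 4, 2], ![2, 0, 1, 3, 5, 4], ![4, 2, 0, 1, 3, 5]]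

lemma hc0 : ∀ a b, hc a b ≠ 0 ∧ hc a b ≠ 1 := by decide

lemma key : ∀ k k' k'' : Fin 6, k ≠ k' → k ≠ k'' → hc k k'' = hc k k' → pos (hc k k') k' ≤ pos (hc k k') k →
    pos (hc k k') k'' ≤ pos (hc k k') k → k' = k'' := by decide

def cl : W → W → Fin 5
  | .inr (.inl _), .inl t => t
  | .inl t, .inr (.inl _) => t
  | .inr (.inr p), .inr (.inl i) => if i = p.1 then 0 else 1
  | .inr (.inl i), .inr (.inr p) => if i = p.1 then 0 else 1
  | .inr (.inr p), .inr (.inr q) => hc p.2.2 q.2.2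
  | _, _ => 0

lemma cl_symm (x y : W) : cl x y = cl y x := by
  rcases x with x | x | x <;> rcases y with y | y | y <;> simp [cl, hc, add_comm]

def rk (a : Fin 5) : W → ℕ
  | .inl _ => 0
  | .inr (.inl _) => 1
  | .inr (.inr p) => 2 + pos a p.2.2

lemma woody5 : Woody G (Sym2.lift ⟨cl, cl_symm⟩) := by
  refine woody_of_rank rk ?_
  rintro a (x | x | ⟨i, j, k⟩) (y | y | ⟨i', j', k'⟩) (z | z | ⟨i'', j'', k''⟩) h1 h2 e1 e2 r1 r2 <;>
    simp only [G, r, fromRel_adj, Sym2.lift_mk, cl, rk, ne_eq, or_false, false_or, and_false, or_self,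
      Sum.inr.injEq, Sum.inl.injEq, Prod.mk.injEq] at * <;> try omega
  · have := hc0 k
    grind
  · have := hc0 k
    grind
  · have := hc0 k
    grind
  · have n1 : k ≠ k' := by grind
    have n2 : k ≠ k'' := by grind
    subst e1
    have := key k k' k'' n1 n2 e2 (by omega) (by omega)
    grind

theorem result : ∃ (V : Type) (_ : Fintype V) (G : SimpleGraph V), 2 * arb G < zeta G := by
  have h5 : arb G ≤ 5 := Nat.sInf_le ⟨_, woody5⟩
  refine ⟨W, inferInstance, G, lt_of_le_of_lt (b := 10) (by omega)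
    (Nat.lt_of_succ_le (le_csInf (s := {k | ∃ c : Sym2 W → Fin k, StronglyWoody G c})
      ⟨_, Fintype.equivFin _, fun v C hC e he ⟨a, ha⟩ => ?_⟩ ?_))⟩
  · have h1 := hC.three_le_length
    have h2 : (C.edges.toFinset.erase e).card ≤ 1 := card_le_one.2 fun x hx y hy => by
      simp only [mem_erase, List.mem_toFinset] at hx hy
      exact (Fintype.equivFin _).injective ((ha x hx.2 hx.1).trans (ha y hy.2 hy.1).symm)
    rw [card_erase_of_mem (by simpa), List.toFinset_card_of_nodup hC.edges_nodup, Walk.length_edges] at h2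
    omega
  · rintro k ⟨c, h⟩
    by_contra! hk
    let w : I → W := fun i => .inr (.inl i)
    obtain ⟨i, j, n, e⟩ := Fintype.exists_ne_map_eq_of_card_lt
      (fun (i : I) (t : Fin 5) => c s(w i, .inl t)) (by
        have : k ^ 5 ≤ 10 ^ 5 := Nat.pow_le_pow_left (by omega) 5
        simp only [Fintype.card_fun, Fintype.card_fin]
        omega)
    have e : ∀ t, c s(w i, .inl t) = c s(w j, .inl t) := congrFun e
    let u : Fin 6 → W := fun t => .inr (.inr (i, j, t))
    have a : ∀ i t, G.Adj (w i) (.inl t) := by simp [G, r, w]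
    have b : ∀ t, G.Adj (w i) (u t) ∧ G.Adj (w j) (u t) := by simp [G, r, w, u]
    have nw : w i ≠ w j := by simpa [w] using n
    have k1 : ∀ t y, G.Adj (w i) y → G.Adj (w j) y → .inl t ≠ y → c s(w i, y) ≠ c s(w i, .inl t) :=
      fun t y y1 y2 n d => c4 h y1.symm (a i t) (a j t).symm y2 n.symm nw
        (by rw [Sym2.eq_swap, d]) (by rw [e, Sym2.eq_swap])
    let g : Fin 5 ⊕ Fin 6 → Fin k := Sum.elim (fun t => c s(w i, .inl t)) (fun t => c s(w i, u t))
    have gi : Function.Injective g := by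
      rintro (s | s) (t | t) d <;> simp only [g, Sum.elim_inl, Sum.elim_inr] at d
      · by_contra m
        exact k1 t _ (a i s) (a j s) (by simpa [eq_comm] using m) d
      · exact absurd d.symm (k1 s _ (b t).1 (b t).2 (by simp [u]))
      · exact absurd d (k1 t _ (b s).1 (b s).2 (by simp [u]))
      · by_contra m
        have m' : t ≠ s := fun q => m (by rw [q])
        exact c3 h (b s).1.symm (b t).1 (by simp [G, r, u, m']) (by rw [Sym2.eq_swap, d])
    have := Fintype.card_le_of_injective g gi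
    simp at this
    omega

end Pool.Agent.Results.MP_96bd24_co.Counter
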